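import Pool.Agent.W483.FB.Stm

/-!
# FB-10: the relations determine the dephased state
-/

set_option autoImplicit false

open Finset Matrix

namespace Pool.Agent.W407.FB

open Pool.Agent.W483.FB

section alg

variable {R : Type} [Ring R] [Algebra ℝ R]

/-- one mode: the state commutes with `E F` -/
theorem mode_comm (E F σ : R) (ν : ℝ) (hE : E * E = 1) (hF : F * F = -1)
    (hEF : E * F = -(F * E)) (R1 : E * σ - σ * E = ν • (F * σ + σ * F))
    (R2 : F * σ - σ * F = ν • (E * σ + σ * E)) : E * F * σ = σ * (E * F) := by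
  have A : σ - E * σ * E = ν • (-(F * E * σ) + E * σ * F) := by
    have h := congrArg (fun x => E * x) R1
    simp only [mul_sub, mul_add, mul_smul_comm, ← mul_assoc, hE, one_mul] at h
    rw [hEF, neg_mul] at h
    exact h
  have B : -σ - F * σ * F = ν • (F * E * σ + F * σ * E) := by
    have h := congrArg (fun x => F * x) R2
    simp only [mul_sub, mul_add, mul_smul_comm, ← mul_assoc, hF, neg_mul, one_mul] at h
    exact h
  have C : E * σ * E - σ = ν • (F * σ * E + σ * (F * E)) := by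
    have h := congrArg (fun x => x * E) R1
    simp only [sub_mul, add_mul, smul_mul_assoc, mul_assoc, hE, mul_one] at h
    simp only [mul_assoc]
    exact h
  have D : F * σ * F + σ = ν • (E * σ * F + -(σ * (F * E))) := by
    have h := congrArg (fun x => x * F) R2
    simp only [sub_mul, add_mul, smul_mul_assoc, mul_assoc, hF, mul_neg, mul_one, hEF] at h
    simp only [mul_assoc]
    rw [sub_neg_eq_add] at h
    exact h
  have Z : E * σ * E + F * σ * F = 0 := by
    have h1 : E * σ * E + F * σ * F = ν • (F * σ * E + E * σ * F) := by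
      linear_combination (norm := module) C + D
    have h2 : -(E * σ * E + F * σ * F) = ν • (F * σ * E + E * σ * F) := by
      linear_combination (norm := module) A + B
    have h3 : (2 : ℝ) • (E * σ * E + F * σ * F) = 0 := by
      linear_combination (norm := module) h1 - h2
    have h4 : E * σ * E + F * σ * F = (1 / 2 : ℝ) • ((2 : ℝ) • (E * σ * E + F * σ * F)) := by
      module
    rw [h4, h3, smul_zero]
  have G : E * F * σ - E * σ * F = ν • (σ + E * σ * E) := by
    have h := congrArg (fun x => E * x) R2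
    simp only [mul_sub, mul_add, mul_smul_comm, ← mul_assoc, hE, one_mul] at h
    exact h
  have H : E * σ * F - σ * (E * F) = ν • (F * σ * F - σ) := by
    have h := congrArg (fun x => x * F) R1
    simp only [sub_mul, add_mul, smul_mul_assoc, mul_assoc, hF, mul_neg, mul_one] at h
    simp only [mul_assoc]
    rw [← sub_eq_add_neg] at h
    exact h
  have h5 : E * F * σ - σ * (E * F) = ν • (E * σ * E + F * σ * F) := by
    linear_combination (norm := module) G + H
  rw [Z, smul_zero] at h5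
  exact sub_eq_zero.1 h5

/-- one mode: the two-point relation -/
theorem mode_rel (E F σ : R) (ν : ℝ) (hE : E * E = 1)
    (R1 : E * σ - σ * E = ν • (F * σ + σ * F)) :
    σ - ν • (E * F * σ) = E * σ * E + ν • (E * σ * E * (E * F)) := by
  have A : σ - E * σ * E = ν • (E * F * σ + E * σ * F) := by
    have h := congrArg (fun x => E * x) R1
    simp only [mul_sub, mul_add, mul_smul_comm, ← mul_assoc, hE, one_mul] at h
    exact h
  have B : E * σ * E * (E * F) = E * σ * F := by
    calc E * σ * E * (E * F) = E * σ * (E * E) * F := by simp only [mul_assoc]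
      _ = _ := by rw [hE, mul_one]
  rw [B]
  linear_combination (norm := module) A

end alg

section vec

variable {κ : Type} [Fintype κ] [DecidableEq κ]

omit [DecidableEq κ] in
theorem sym_dot (M : Matrix κ κ ℝ) (hM : Mᵀ = M) (x y : κ → ℝ) :
    (M *ᵥ x) ⬝ᵥ y = x ⬝ᵥ (M *ᵥ y) := by
  rw [← Matrix.vecMul_transpose, hM, ← Matrix.dotProduct_mulVec]

omit [DecidableEq κ] in
theorem tr_dot (M : Matrix κ κ ℝ) (x y : κ → ℝ) :
    (M *ᵥ x) ⬝ᵥ y = x ⬝ᵥ (Mᵀ *ᵥ y) := by
  rw [← Matrix.vecMul_transpose, ← Matrix.dotProduct_mulVec]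

omit [DecidableEq κ] in
/-- eigenvectors with different eigenvalues -/
theorem off (M σ : Matrix κ κ ℝ) (hM : Mᵀ = M) (hc : M * σ = σ * M) (x y : κ → ℝ) (α β : ℝ)
    (hx : M *ᵥ x = α • x) (hy : M *ᵥ y = β • y) (hne : α ≠ β) : x ⬝ᵥ (σ *ᵥ y) = 0 := by
  have h1 : (M *ᵥ x) ⬝ᵥ (σ *ᵥ y) = x ⬝ᵥ (M *ᵥ (σ *ᵥ y)) := sym_dot M hM _ _
  rw [Matrix.mulVec_mulVec, hc, ← Matrix.mulVec_mulVec, hx, hy, Matrix.mulVec_smul,
    smul_dotProduct, dotProduct_smul, smul_eq_mul, smul_eq_mul] at h1
  have h2 : (α - β) * (x ⬝ᵥ (σ *ᵥ y)) = 0 := by linarith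
  exact (mul_eq_zero.1 h2).resolve_left (sub_ne_zero.2 hne)

/-- expansion in an orthonormal basis -/
theorem expand (w : κ → κ → ℝ) (hw : Orth w) (x : κ → ℝ) : x = ∑ c, (w c ⬝ᵥ x) • w c := by
  ext y
  rw [Finset.sum_apply]
  simp only [Pi.smul_apply, smul_eq_mul, dotProduct, Finset.sum_mul]
  rw [Finset.sum_comm]
  have h1 : ∀ z, ∑ c, w c z * x z * w c y = x z * (if z = y then 1 else 0) := by
    intro z
    rw [← Pool.Agent.H235R2.QLP.complete w hw z y, Finset.mul_sum]
    refine Finset.sum_congr rfl fun c _ => ?_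
    ring
  simp only [h1]
  simp

/-- the trace in an orthonormal basis -/
theorem trace_eq (w : κ → κ → ℝ) (hw : Orth w) (σ : Matrix κ κ ℝ) :
    ∑ c, w c ⬝ᵥ (σ *ᵥ w c) = σ.trace := by
  have h1 : ∀ c, w c ⬝ᵥ (σ *ᵥ w c) = ∑ x, ∑ y, σ x y * (w c x * w c y) := by
    intro c
    simp only [dotProduct, Matrix.mulVec, Finset.mul_sum]
    refine Finset.sum_congr rfl fun x _ => Finset.sum_congr rfl fun y _ => ?_
    ring
  simp only [h1]
  rw [Finset.sum_comm]
  unfold Matrix.trace
  refine Finset.sum_congr rfl fun x _ => ?_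
  rw [Finset.sum_comm]
  have h2 : ∀ y, ∑ c, σ x y * (w c x * w c y) = σ x y * (if x = y then 1 else 0) := by
    intro y
    rw [← Finset.mul_sum, Pool.Agent.H235R2.QLP.complete w hw x y]
  simp only [h2]
  simp

end vec

theorem sg_ne {b b' : Bool} (h : b ≠ b') : sg b ≠ sg b' := by
  cases b <;> cases b' <;> simp_all [sg] <;> norm_num

theorem sg_not (b : Bool) : sg (!b) = -sg b := by
  cases b <;> simp [sg]

theorem sg_mul (b : Bool) : sg b * sg b = 1 := by
  cases b <;> simp [sg]

/-- a unit joint eigenvector has the same expectation as the basis vector with its pattern -/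
theorem val {n : ℕ} (w : (Fin n → Bool) → (Fin n → Bool) → ℝ) (hw : Orth w) (G : Fin n → Mat n)
    (hG : ∀ k, (G k)ᵀ = G k) (hGw : ∀ s k, (G k) *ᵥ (w s) = sg (s k) • w s) (σ : Mat n)
    (x : (Fin n → Bool) → ℝ) (s : Fin n → Bool) (hx : x ⬝ᵥ x = 1)
    (hxG : ∀ k, (G k) *ᵥ x = sg (s k) • x) : x ⬝ᵥ (σ *ᵥ x) = w s ⬝ᵥ (σ *ᵥ w s) := by
  have h1 : ∀ t, t ≠ s → w t ⬝ᵥ x = 0 := by
    intro t ht
    obtain ⟨k, hk⟩ : ∃ k, t k ≠ s k := by
      by_contra hcon
      push Not at hcon
      exact ht (funext hcon)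
    have h2 := off (G k) 1 (hG k) (by rw [mul_one, one_mul]) (w t) x _ _ (hGw t k) (hxG k)
      (sg_ne hk)
    rwa [Matrix.one_mulVec] at h2
  have h3 : x = (w s ⬝ᵥ x) • w s := by
    conv_lhs => rw [expand w hw x]
    rw [Finset.sum_eq_single s]
    · intro t _ ht
      rw [h1 t ht, zero_smul]
    · intro h
      exact absurd (Finset.mem_univ s) h
  obtain ⟨q, hq⟩ : ∃ q : ℝ, q = w s ⬝ᵥ x := ⟨_, rfl⟩
  rw [← hq] at h3
  have h4 : w s ⬝ᵥ w s = 1 := by
    have := hw s s
    rw [if_pos rfl] at this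
    exact this
  rw [h3, smul_dotProduct, dotProduct_smul, h4, smul_eq_mul, smul_eq_mul, mul_one] at hx
  rw [h3, Matrix.mulVec_smul, smul_dotProduct, dotProduct_smul, smul_eq_mul, smul_eq_mul,
    ← mul_assoc, hx, one_mul]

theorem t_diag (ha : S_alg) (hp : S_pw) : S_diag := by
  intro n c a b b0 nu' w σ hoa ha0 hob hb0 hbb hw hwe hwC R1 R2 R3 R4
  -- algebra
  have he : c.E (Pi.single 0 1) = c.e 0 := by
    unfold Cliff.E
    rw [Finset.sum_eq_single 0]
    · simp
    · intro i _ hi
      rw [Pi.single_eq_of_ne hi, zero_smul]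
    · intro h
      exact absurd (Finset.mem_univ _) h
  have sE : ∀ j, c.E (a j) * c.E (a j) = 1 := by
    intro j
    have h1 := (ha _ c (a j) (a j)).1
    have h2 := hoa j j
    rw [if_pos rfl] at h2
    rw [h2] at h1
    have h3 : c.E (a j) * c.E (a j) =
        (1 / 2 : ℝ) • (c.E (a j) * c.E (a j) + c.E (a j) * c.E (a j)) := by module
    rw [h3, h1]
    module
  have sF : ∀ j, c.F (b j) * c.F (b j) = -1 := by
    intro j
    have h1 := (ha _ c (b j) (b j)).2.1
    have h2 := hob j j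
    rw [if_pos rfl] at h2
    rw [h2] at h1
    have h3 : c.F (b j) * c.F (b j) =
        (1 / 2 : ℝ) • (c.F (b j) * c.F (b j) + c.F (b j) * c.F (b j)) := by module
    rw [h3, h1]
    module
  have sF0 : c.F b0 * c.F b0 = -1 := by
    have h1 := (ha _ c b0 b0).2.1
    rw [hb0] at h1
    have h3 : c.F b0 * c.F b0 =
        (1 / 2 : ℝ) • (c.F b0 * c.F b0 + c.F b0 * c.F b0) := by module
    rw [h3, h1]
    module
  have EE : ∀ j k, j ≠ k → c.E (a j) * c.E (a k) = -(c.E (a k) * c.E (a j)) := by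
    intro j k hjk
    have h1 := (ha _ c (a j) (a k)).1
    have h2 := hoa j k
    rw [if_neg hjk] at h2
    rw [h2, mul_zero, zero_smul] at h1
    exact eq_neg_of_add_eq_zero_left h1
  have eE : ∀ j, c.e 0 * c.E (a j) = -(c.E (a j) * c.e 0) := by
    intro j
    have h1 := (ha _ c (Pi.single 0 1) (a j)).1
    have h2 : ∑ i, (Pi.single 0 1 : Fin (n + 1) → ℝ) i * a j i = 0 := by
      rw [Finset.sum_eq_single 0]
      · rw [ha0 j, mul_zero]
      · intro i _ hi
        rw [Pi.single_eq_of_ne hi, zero_mul]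
      · intro h
        exact absurd (Finset.mem_univ _) h
    rw [h2, mul_zero, zero_smul, he] at h1
    exact eq_neg_of_add_eq_zero_left h1
  have EF : ∀ v u, c.E v * c.F u = -(c.F u * c.E v) := by
    intro v u
    exact eq_neg_of_add_eq_zero_left (ha _ c v u).2.2.1
  have eF : ∀ u, c.e 0 * c.F u = -(c.F u * c.e 0) := by
    intro u
    rw [← he]
    exact EF _ _
  have FF0 : ∀ j, c.F (b j) * c.F b0 = -(c.F b0 * c.F (b j)) := by
    intro j
    have h1 := (ha _ c (b j) b0).2.1
    have h2 : ∑ i, b j i * b0 i = 0 := by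
      rw [← hbb j]
      exact Finset.sum_congr rfl fun i _ => mul_comm _ _
    rw [h2, mul_zero, neg_zero, zero_smul] at h1
    exact eq_neg_of_add_eq_zero_left h1
  have Et : ∀ v, (c.E v)ᵀ = c.E v := fun v => (ha _ c v v).2.2.2.1
  have Ft : ∀ v, (c.F v)ᵀ = -c.F v := fun v => (ha _ c v v).2.2.2.2
  have et : (c.e 0)ᵀ = c.e 0 := by rw [← he]; exact Et _
  -- the commuting family
  obtain ⟨G, hG⟩ : ∃ G : Fin (n + 1) → Mat (n + 1),
      G = Fin.cons (c.e 0) (fun j => c.E (a j) * c.F (b j)) := ⟨_, rfl⟩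
  have hG0 : G 0 = c.e 0 := by rw [hG]; rfl
  have hGs : ∀ j : Fin n, G j.succ = c.E (a j) * c.F (b j) := by intro j; rw [hG]; rfl
  have Gt : ∀ k, (G k)ᵀ = G k := by
    intro k
    refine Fin.cases ?_ (fun j => ?_) k
    · rw [hG0, et]
    · rw [hGs, Matrix.transpose_mul, Et, Ft, neg_mul, ← EF]
  have Gw : ∀ s k, (G k) *ᵥ (w s) = sg (s k) • w s := by
    intro s k
    refine Fin.cases ?_ (fun j => ?_) k
    · rw [hG0, hwe]
    · rw [hGs, hwC]
  have Gσ : ∀ k, G k * σ = σ * G k := by
    intro k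
    refine Fin.cases ?_ (fun j => ?_) k
    · rw [hG0, R4]
    · rw [hGs]
      exact mode_comm _ _ σ (nu' j) (sE j) (sF j) (EF _ _) (R1 j) (R2 j)
  -- off-diagonal elements
  have hoff : ∀ s t, s ≠ t → w s ⬝ᵥ σ *ᵥ (w t) = 0 := by
    intro s t hst
    obtain ⟨k, hk⟩ : ∃ k, s k ≠ t k := by
      by_contra hcon
      push Not at hcon
      exact hst (funext hcon)
    exact off (G k) σ (Gt k) (Gσ k) (w s) (w t) _ _ (Gw s k) (Gw t k) (sg_ne hk)
  -- diagonal elements
  have hww : ∀ s, w s ⬝ᵥ w s = 1 := by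
    intro s
    have := hw s s
    rw [if_pos rfl] at this
    exact this
  obtain ⟨r, hr⟩ : ∃ r : (Fin (n + 1) → Bool) → ℝ, r = fun s => w s ⬝ᵥ σ *ᵥ (w s) := ⟨_, rfl⟩
  have hr' : ∀ s, r s = w s ⬝ᵥ σ *ᵥ (w s) := fun s => by rw [hr]
  -- flip of the first bit
  have hr0 : ∀ s, r (flp 0 s) = r s := by
    intro s
    rw [hr' (flp 0 s), hr' s]
    have hval := val w hw G Gt Gw σ (c.F b0 *ᵥ w s) (flp 0 s) (by
      rw [tr_dot, Ft, Matrix.mulVec_mulVec, neg_mul, sF0, neg_neg, Matrix.one_mulVec, hww]) (by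
      intro k
      refine Fin.cases ?_ (fun j => ?_) k
      · have h1 : flp 0 s 0 = !s 0 := by unfold flp; rw [Function.update_self]
        rw [hG0, Matrix.mulVec_mulVec, eF, h1, sg_not, Matrix.neg_mulVec, ← Matrix.mulVec_mulVec,
          hwe, Matrix.mulVec_smul, neg_smul]
      · have h1 : flp 0 s j.succ = s j.succ := by
          unfold flp
          rw [Function.update_of_ne (Fin.succ_ne_zero j)]
        have h2 : c.E (a j) * c.F (b j) * c.F b0 = c.F b0 * (c.E (a j) * c.F (b j)) := by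
          rw [mul_assoc, FF0, mul_neg, ← mul_assoc, EF, neg_mul, neg_neg, mul_assoc]
        rw [hGs, Matrix.mulVec_mulVec, h2, h1, ← Matrix.mulVec_mulVec, hwC, Matrix.mulVec_smul])
    rw [← hval, tr_dot, Ft, Matrix.mulVec_mulVec, Matrix.mulVec_mulVec, mul_assoc, ← R3,
      ← mul_assoc, neg_mul, sF0, neg_neg, one_mul]
  -- flip of another bit
  have hrs : ∀ s (j : Fin n), (1 - nu' j * sg (s j.succ)) * r s =
      (1 + nu' j * sg (s j.succ)) * r (flp j.succ s) := by
    intro s j
    have hval := val w hw G Gt Gw σ (c.E (a j) *ᵥ w s) (flp 0 (flp j.succ s)) (by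
      rw [tr_dot, Et, Matrix.mulVec_mulVec, sE, Matrix.one_mulVec, hww]) (by
      intro k
      refine Fin.cases ?_ (fun i => ?_) k
      · have h1 : flp 0 (flp j.succ s) 0 = !s 0 := by
          unfold flp
          rw [Function.update_self, Function.update_of_ne (Fin.succ_ne_zero j).symm]
        rw [hG0, Matrix.mulVec_mulVec, eE, h1, sg_not, Matrix.neg_mulVec, ← Matrix.mulVec_mulVec,
          hwe, Matrix.mulVec_smul, neg_smul]
      · have h0 : flp 0 (flp j.succ s) i.succ = flp j.succ s i.succ := by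
          unfold flp
          rw [Function.update_of_ne (Fin.succ_ne_zero i)]
        rw [h0, hGs, Matrix.mulVec_mulVec]
        by_cases hij : i = j
        · subst hij
          have h1 : flp i.succ s i.succ = !s i.succ := by unfold flp; rw [Function.update_self]
          have h2 : c.E (a i) * c.F (b i) * c.E (a i) =
              -(c.E (a i) * (c.E (a i) * c.F (b i))) := by
            rw [mul_assoc, EF (a i) (b i), mul_neg, neg_neg]
          rw [h2, h1, sg_not, Matrix.neg_mulVec, ← Matrix.mulVec_mulVec, hwC, Matrix.mulVec_smul,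
            neg_smul]
        · have h1 : flp j.succ s i.succ = s i.succ := by
            unfold flp
            rw [Function.update_of_ne]
            intro h
            exact hij (Fin.succ_injective _ h)
          have h2 : c.E (a i) * c.F (b i) * c.E (a j) =
              c.E (a j) * (c.E (a i) * c.F (b i)) := by
            have h3 : c.F (b i) * c.E (a j) = -(c.E (a j) * c.F (b i)) := by
              rw [EF (a j) (b i), neg_neg]
            rw [mul_assoc, h3, mul_neg, ← mul_assoc, EE i j hij, neg_mul, neg_neg, mul_assoc]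
          rw [h2, h1, ← Matrix.mulVec_mulVec, hwC, Matrix.mulVec_smul])
    rw [← hr' (flp 0 (flp j.succ s)), hr0, tr_dot, Et, Matrix.mulVec_mulVec,
      Matrix.mulVec_mulVec] at hval
    have hrel := mode_rel (c.E (a j)) (c.F (b j)) σ (nu' j) (sE j) (R1 j)
    have h1 := congrArg (fun M : Mat (n + 1) => w s ⬝ᵥ (M *ᵥ w s)) hrel
    simp only [Matrix.sub_mulVec, Matrix.add_mulVec, Matrix.smul_mulVec, dotProduct_sub,
      dotProduct_add, dotProduct_smul, smul_eq_mul] at h1
    have h2 : w s ⬝ᵥ ((c.E (a j) * c.F (b j) * σ) *ᵥ w s) = sg (s j.succ) * r s := by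
      rw [← hGs, ← Matrix.mulVec_mulVec, ← sym_dot _ (Gt _), Gw, smul_dotProduct, smul_eq_mul,
        ← hr']
    have h3 : w s ⬝ᵥ ((c.E (a j) * σ * c.E (a j) * (c.E (a j) * c.F (b j))) *ᵥ w s) =
        sg (s j.succ) * (w s ⬝ᵥ ((c.E (a j) * σ * c.E (a j)) *ᵥ w s)) := by
      rw [← Matrix.mulVec_mulVec, hwC, Matrix.mulVec_smul, dotProduct_smul, smul_eq_mul]
    rw [h2, h3, hval, ← hr'] at h1
    linear_combination h1
  have hsum : ∑ t, r t = σ.trace := by
    rw [← trace_eq w hw σ]
    exact Finset.sum_congr rfl fun t _ => hr' t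
  have hfin := (hp (n + 1) (Fin.cons 0 nu')).2.2.1 r (by
    intro s j
    refine Fin.cases ?_ (fun j => ?_) j
    · rw [hr0]
      simp
    · simp only [Fin.cons_succ]
      exact hrs s j)
  intro s t
  by_cases hst : s = t
  · subst hst
    rw [if_pos rfl, ← hr' s, hfin s, hsum]
  · rw [if_neg hst]
    exact hoff s t hst

end Pool.Agent.W407.FB
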